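import Mathlib
import Pool.Agent.NH74.F053.Lower
import Pool.Agent.NH74.F053.UpperFinal

/-!
# MP_f053ce_co: the maximal number of edges of a critical `k`-chromatic graph, asymptotically

For every fixed `k ≥ 4`, critical (vertex-critical) `k`-chromatic graphs of order `n` exist for all
large `n`, and the maximal number `f_k(n)` of their edges satisfies
`f_k(n) / n ^ 2 → (1/2) (1 - 1/(k-2))`, the density of the balanced complete `(k-2)`-partite graph.

Lower bound (explicit, with error `45 (k-2) ^ 2 n ^ (3/2)`): the core is a complete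
`(k-2)`-partite graph with `q ^ 2` vertices `a i j` in each part; `2 q` further vertices for each
part, attached to two odd cycles, make each `a i j` critical; a path makes the order arbitrary.

Upper bound: let `r = k - 1` and let `φ z` be an `r`-colouring of `G - z`.  After the removal of
`o(n ^ 2)` edges with the regularity lemma the colours `φ z` of the vertices in `r`-cliques are
given by one of boundedly many patterns.  If `x` is such a vertex, then `x` has a neighbour `p x`
with the colour of the pattern of `x` in `φ x`, and for all but boundedly many `x` this partner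
lies in no `r`-clique.  A count of the vertices and their partners around an `r`-clique shows that
its degree sum is at most `(r - 3/2) n + r / 2`, and this remains so if vertices which are no
partners are removed.  So one can remove vertices of small degree until there are no `r`-cliques
left, and use Turan's theorem.
-/

namespace Pool.Agent.Results.MP_f053ce_co.AsymptoticMaxEdges

open Pool.Agent.NH74.F053 Filter Topology

theorem colorable_of_critical {V : Type} {k : ℕ} (hk : 1 ≤ k) {G : SimpleGraph V}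
    (hG : IsCritical k G) : ¬ G.Colorable (k - 1) ∧ ∀ x, (G.induce {x}ᶜ).Colorable (k - 1) := by
  constructor
  · intro h
    have h1 := SimpleGraph.chromaticNumber_le_iff_colorable.mpr h
    rw [hG.1] at h1
    have h2 : k ≤ k - 1 := by exact_mod_cast h1
    omega
  · intro x
    exact SimpleGraph.chromaticNumber_le_iff_colorable.mp (le_of_eq (hG.2 x))

theorem maxEdges_le {k n : ℕ} {b : ℝ} (hb : 0 ≤ b)
    (h : ∀ G : SimpleGraph (Fin n), IsCritical k G → (G.edgeSet.ncard : ℝ) ≤ b) :
    (maxEdges k n : ℝ) ≤ b := by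
  classical
  rcases Set.eq_empty_or_nonempty
    {e : ℕ | ∃ G : SimpleGraph (Fin n), IsCritical k G ∧ G.edgeSet.ncard = e} with he | hne
  · rw [maxEdges, he]
    simpa using hb
  · have hmem := Nat.sSup_mem hne (by
      refine ⟨(Set.univ : Set (Sym2 (Fin n))).ncard, ?_⟩
      rintro e ⟨G', _, rfl⟩
      exact Set.ncard_le_ncard (Set.subset_univ _) Set.finite_univ)
    obtain ⟨G, hG, hGe⟩ := hmem
    rw [maxEdges, ← hGe]
    exact h G hG

/-- For every `k ≥ 4`: for all `n ≥ 25 (k - 2) + 3` there is a critical `k`-chromatic graph of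
order `n`, and `f_k(n) ≥ (1/2) (1 - 1/(k-2)) n ^ 2 - 45 (k-2) ^ 2 n ^ (3/2)`; and
`f_k(n) / n ^ 2` tends to `(1/2) (1 - 1/(k-2))` as `n → ∞`. -/
theorem result (k : ℕ) (hk : 4 ≤ k) :
    (∀ n : ℕ, 25 * (k - 2) + 3 ≤ n → (∃ G : SimpleGraph (Fin n), IsCritical k G) ∧
      1 / 2 * (1 - 1 / ((k : ℝ) - 2)) * (n : ℝ) ^ 2 - 45 * ((k : ℝ) - 2) ^ 2 * (n : ℝ) ^ (3 / 2 : ℝ)
        ≤ (maxEdges k n : ℝ)) ∧
    Tendsto (fun n : ℕ => (maxEdges k n : ℝ) / (n : ℝ) ^ 2) atTop
      (𝓝 (1 / 2 * (1 - 1 / ((k : ℝ) - 2)))) := by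
  have hlow := lower_bound k hk
  refine ⟨hlow, ?_⟩
  have hk2 : (2 : ℝ) ≤ (k : ℝ) - 2 := by
    have : (4 : ℝ) ≤ k := by exact_mod_cast hk
    linarith
  set τ : ℝ := 1 / 2 * (1 - 1 / ((k : ℝ) - 2)) with hτ
  have hτ0 : 0 ≤ τ := by
    have : 1 / ((k : ℝ) - 2) ≤ 1 := by
      rw [div_le_one (by linarith)]; linarith
    rw [hτ]; linarith
  -- the error term of the lower bound
  have herr : Tendsto (fun n : ℕ => 45 * ((k : ℝ) - 2) ^ 2 * (n : ℝ) ^ (-(1 / 2) : ℝ)) atTop
      (𝓝 0) := by
    have h1 : Tendsto (fun n : ℕ => (n : ℝ) ^ (-(1 / 2) : ℝ)) atTop (𝓝 0) :=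
      (tendsto_rpow_neg_atTop (by norm_num : (0 : ℝ) < 1 / 2)).comp tendsto_natCast_atTop_atTop
    simpa using h1.const_mul (45 * ((k : ℝ) - 2) ^ 2)
  rw [Metric.tendsto_atTop] at herr ⊢
  intro ε hε
  obtain ⟨N1, hN1⟩ := herr (ε / 2) (by positivity)
  obtain ⟨N2, hN2⟩ := upper_bound (k - 1) (by omega) (ε / 2) (by positivity)
  refine ⟨max (max N1 N2) (25 * (k - 2) + 3), ?_⟩
  intro n hn
  have hn1 : N1 ≤ n := le_trans (le_trans (le_max_left _ _) (le_max_left _ _)) hn
  have hn2 : N2 ≤ n := le_trans (le_trans (le_max_right _ _) (le_max_left _ _)) hn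
  have hn3 : 25 * (k - 2) + 3 ≤ n := le_trans (le_max_right _ _) hn
  have hnpos : (0 : ℝ) < n := by
    have : 0 < n := by omega
    exact_mod_cast this
  rw [Real.dist_eq, abs_lt]
  constructor
  · -- lower bound
    have h1 := (hlow n hn3).2
    have h2 := hN1 n hn1
    rw [Real.dist_eq, sub_zero, abs_lt] at h2
    have h3 : (n : ℝ) ^ (3 / 2 : ℝ) = (n : ℝ) ^ (-(1 / 2) : ℝ) * (n : ℝ) ^ 2 := by
      rw [← Real.rpow_natCast (n : ℝ) 2, ← Real.rpow_add hnpos]
      norm_num
    rw [h3] at h1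
    have h4 : τ - 45 * ((k : ℝ) - 2) ^ 2 * (n : ℝ) ^ (-(1 / 2) : ℝ) ≤
        (maxEdges k n : ℝ) / (n : ℝ) ^ 2 := by
      rw [le_div_iff₀ (by positivity)]
      calc (τ - 45 * ((k : ℝ) - 2) ^ 2 * (n : ℝ) ^ (-(1 / 2) : ℝ)) * (n : ℝ) ^ 2
          = τ * (n : ℝ) ^ 2 - 45 * ((k : ℝ) - 2) ^ 2 *
            ((n : ℝ) ^ (-(1 / 2) : ℝ) * (n : ℝ) ^ 2) := by ring
        _ ≤ _ := h1
    linarith [h2.2]
  · -- upper bound
    have h1 : (maxEdges k n : ℝ) ≤ (τ + ε / 4) * (n : ℝ) ^ 2 := by
      apply maxEdges_le (by positivity)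
      intro G hG
      classical
      obtain ⟨h2, h3⟩ := colorable_of_critical (by omega : 1 ≤ k) hG
      have h4 := hN2 (Fin n) G (by rw [Fintype.card_fin]; exact hn2) h2 h3
      rw [Fintype.card_fin, Nat.cast_sub (by omega)] at h4
      have h5 : (G.edgeSet.ncard : ℝ) = (G.edgeFinset.card : ℝ) := by
        rw [Set.ncard_eq_toFinset_card']
        rfl
      rw [h5]
      have h6 : ((k : ℝ) - ((1 : ℕ) : ℝ) - 2) / ((k : ℝ) - ((1 : ℕ) : ℝ) - 1) =
          1 - 1 / ((k : ℝ) - 2) := by
        push_cast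
        have h7 : (k : ℝ) - 1 - 1 = (k : ℝ) - 2 := by ring
        rw [h7]
        have h8 : (k : ℝ) - 2 ≠ 0 := by linarith
        field_simp
        ring
      rw [h6] at h4
      rw [hτ]
      linarith
    have h2 : (maxEdges k n : ℝ) / (n : ℝ) ^ 2 ≤ τ + ε / 4 := by
      rw [div_le_iff₀ (by positivity)]
      exact h1
    linarith

end Pool.Agent.Results.MP_f053ce_co.AsymptoticMaxEdges
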